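import Mathlib

/-!
Energy increment for integer paths of bounded speed: at most scales and times such a path is
almost linear.
-/

namespace Pool.Agent.R579.Rugby

open Finset

/-- The average velocity of `y` on the window `[t, t + b ^ j]`. -/
noncomputable def av (y : ℕ → ℤ) (b j t : ℕ) : ℝ := ((y (t + b ^ j) : ℝ) - y t) / (b : ℝ) ^ j

theorem av_succ (y : ℕ → ℤ) {b : ℕ} (hb : 0 < b) (j t : ℕ) :
    (b : ℝ) * av y b (j + 1) t = ∑ i ∈ range b, av y b j (t + i * b ^ j) := by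
  have hb' : (b : ℝ) ≠ 0 := by positivity
  unfold av
  rw [← Finset.sum_div]
  have h1 : ∑ i ∈ range b, ((y (t + i * b ^ j + b ^ j) : ℝ) - y (t + i * b ^ j))
      = (y (t + b ^ (j + 1)) : ℝ) - y t := by
    have h2 := Finset.sum_range_sub (fun i => (y (t + i * b ^ j) : ℝ)) b
    simp only [zero_mul, add_zero] at h2
    rw [pow_succ, mul_comm (b ^ j) b, ← h2]
    refine Finset.sum_congr rfl (fun i _ => ?_)
    rw [show t + i * b ^ j + b ^ j = t + (i + 1) * b ^ j by ring]
  rw [h1]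
  field_simp
  ring

theorem av_var (y : ℕ → ℤ) {b : ℕ} (hb : 0 < b) (j t : ℕ) :
    ∑ i ∈ range b, (av y b j (t + i * b ^ j) - av y b (j + 1) t) ^ 2
      = ∑ i ∈ range b, (av y b j (t + i * b ^ j)) ^ 2 - b * (av y b (j + 1) t) ^ 2 := by
  have h := av_succ y hb j t
  have h1 : ∀ i, (av y b j (t + i * b ^ j) - av y b (j + 1) t) ^ 2
      = (av y b j (t + i * b ^ j)) ^ 2 - 2 * av y b (j + 1) t * av y b j (t + i * b ^ j)
        + (av y b (j + 1) t) ^ 2 := fun i => by ring
  simp_rw [h1]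
  rw [Finset.sum_add_distrib, Finset.sum_sub_distrib, ← Finset.mul_sum, ← h, Finset.sum_const,
    card_range, nsmul_eq_mul]
  ring

/-- The energy at scale `j` in the window `[0, 2 * M]`. -/
noncomputable def en (y : ℕ → ℤ) (b M j : ℕ) : ℝ :=
  ∑ t ∈ range (2 * M - b ^ j + 1), (av y b j t) ^ 2

theorem en_nonneg (y : ℕ → ℤ) (b M j : ℕ) : 0 ≤ en y b M j :=
  Finset.sum_nonneg (fun _ _ => sq_nonneg _)

theorem en_succ (y : ℕ → ℤ) {b : ℕ} (hb : 0 < b) (M j : ℕ) (hM : b ^ (j + 1) ≤ 2 * M) :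
    ∑ t ∈ range (2 * M - b ^ (j + 1) + 1),
      ∑ i ∈ range b, (av y b j (t + i * b ^ j) - av y b (j + 1) t) ^ 2
      ≤ b * (en y b M j - en y b M (j + 1)) := by
  simp_rw [av_var y hb]
  rw [Finset.sum_sub_distrib, Finset.sum_comm, ← Finset.mul_sum, mul_sub]
  refine sub_le_sub_right ?_ _
  have h1 : ∀ i ∈ range b, ∑ t ∈ range (2 * M - b ^ (j + 1) + 1), (av y b j (t + i * b ^ j)) ^ 2
      ≤ en y b M j := by
    intro i hi
    unfold en
    rw [← Finset.sum_image (s := range (2 * M - b ^ (j + 1) + 1)) (g := fun t => t + i * b ^ j)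
      (f := fun t => (av y b j t) ^ 2)]
    · refine Finset.sum_le_sum_of_subset_of_nonneg ?_ (fun _ _ _ => sq_nonneg _)
      intro t ht
      rw [mem_image] at ht
      obtain ⟨u, hu, rfl⟩ := ht
      rw [mem_range] at hu hi ⊢
      have h2 : (i + 1) * b ^ j ≤ b ^ (j + 1) := by
        rw [pow_succ, mul_comm]
        exact Nat.mul_le_mul_left _ hi
      have h3 : (i + 1) * b ^ j = i * b ^ j + b ^ j := by ring
      have h4 : 0 ≤ b ^ j := Nat.zero_le _
      generalize b ^ (j + 1) = B at *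
      generalize i * b ^ j = I at *
      generalize b ^ j = C at *
      omega
    · intro a _ c _ hac
      simpa using hac
  calc ∑ i ∈ range b, ∑ t ∈ range (2 * M - b ^ (j + 1) + 1), (av y b j (t + i * b ^ j)) ^ 2
      ≤ ∑ i ∈ range b, en y b M j := Finset.sum_le_sum h1
    _ = b * en y b M j := by rw [Finset.sum_const, card_range, nsmul_eq_mul]

/-- The prediction error. -/
def err (y : ℕ → ℤ) (b j t : ℕ) : ℤ :=
  (y (t + (b - 1) * b ^ j) - y t) - (b - 1) * (y (t + b ^ j) - y t)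

theorem bad_var (y : ℕ → ℤ) {b : ℕ} (hb : 0 < b) (j t : ℕ) (h : (b : ℤ) ^ j < |err y b j t|) :
    1 ≤ 4 * (b : ℝ) ^ 2 *
      ∑ i ∈ range b, (av y b j (t + i * b ^ j) - av y b (j + 1) t) ^ 2 := by
  have hb' : (0 : ℝ) < b := by exact_mod_cast hb
  have hbj : (0 : ℝ) < (b : ℝ) ^ j := by positivity
  set m := av y b (j + 1) t with hm
  set x : ℕ → ℝ := fun i => av y b j (t + i * b ^ j) with hx
  change 1 ≤ 4 * (b : ℝ) ^ 2 * ∑ i ∈ range b, (x i - m) ^ 2
  by_contra hcon
  rw [not_le] at hcon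
  have h1 : ∀ i ∈ range b, |x i - m| ≤ 1 / (2 * b) := by
    intro i hi
    by_contra h2
    rw [not_le] at h2
    have h3 : (x i - m) ^ 2 ≤ ∑ i ∈ range b, (x i - m) ^ 2 :=
      Finset.single_le_sum (f := fun i => (x i - m) ^ 2) (fun _ _ => sq_nonneg _) hi
    have h4 : (1 / (2 * (b : ℝ))) ^ 2 < (x i - m) ^ 2 := by
      rw [← sq_abs (x i - m)]
      exact pow_lt_pow_left₀ h2 (by positivity) two_ne_zero
    have h5 : 4 * (b : ℝ) ^ 2 * (1 / (2 * (b : ℝ))) ^ 2 = 1 := by
      field_simp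
      ring
    nlinarith [mul_lt_mul_of_pos_left (h4.trans_le h3) (by positivity : (0 : ℝ) < 4 * (b : ℝ) ^ 2)]
  have h6 : (err y b j t : ℝ) / (b : ℝ) ^ j = ∑ i ∈ range (b - 1), (x i - x 0) := by
    have h7 := Finset.sum_range_sub (fun i => (y (t + i * b ^ j) : ℝ)) (b - 1)
    simp only [zero_mul, add_zero] at h7
    have h8 : ∑ i ∈ range (b - 1), x i
        = ((y (t + (b - 1) * b ^ j) : ℝ) - y t) / (b : ℝ) ^ j := by
      rw [← h7, Finset.sum_div]
      refine Finset.sum_congr rfl (fun i _ => ?_)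
      simp only [hx, av]
      rw [show t + i * b ^ j + b ^ j = t + (i + 1) * b ^ j by ring]
    rw [Finset.sum_sub_distrib, h8, Finset.sum_const, card_range, nsmul_eq_mul]
    simp only [hx, av, err, zero_mul, add_zero]
    push_cast [Nat.cast_sub hb]
    ring
  have h9 : |(err y b j t : ℝ) / (b : ℝ) ^ j| ≤ 1 := by
    rw [h6]
    refine (Finset.abs_sum_le_sum_abs _ _).trans ?_
    have h10 : ∀ i ∈ range (b - 1), |x i - x 0| ≤ 1 / b := by
      intro i hi
      rw [mem_range] at hi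
      have h11 := h1 i (mem_range.2 (by omega))
      have h12 := h1 0 (mem_range.2 hb)
      rw [show x i - x 0 = (x i - m) - (x 0 - m) by ring]
      refine (abs_sub _ _).trans ?_
      have h13 : 1 / (b : ℝ) = 1 / (2 * b) + 1 / (2 * b) := by
        field_simp
        norm_num
      rw [h13]
      exact add_le_add h11 h12
    refine (Finset.sum_le_sum h10).trans ?_
    rw [Finset.sum_const, card_range, nsmul_eq_mul, mul_one_div, div_le_one hb']
    exact_mod_cast Nat.sub_le b 1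
  rw [abs_div, abs_of_pos hbj, div_le_one hbj] at h9
  have h14 : |err y b j t| ≤ (b : ℤ) ^ j := by exact_mod_cast h9
  omega

/-- The times `u < M` such that scale `j` is bad for the target time `M + u`. -/
def badSet (y : ℕ → ℤ) (b M j : ℕ) : Finset ℕ :=
  (range M).filter (fun u => (b : ℤ) ^ j < |err y b j (M + u - b ^ (j + 1))|)

theorem card_badSet (y : ℕ → ℤ) {b : ℕ} (hb : 0 < b) (M j : ℕ) (hM : b ^ (j + 1) ≤ M) :
    ((badSet y b M j).card : ℝ) ≤ 4 * (b : ℝ) ^ 3 * (en y b M j - en y b M (j + 1)) := by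
  have h1 : ((badSet y b M j).card : ℝ) ≤ ∑ t ∈ (badSet y b M j).image
      (fun u => M + u - b ^ (j + 1)), 4 * (b : ℝ) ^ 2 *
        ∑ i ∈ range b, (av y b j (t + i * b ^ j) - av y b (j + 1) t) ^ 2 := by
    rw [Finset.sum_image]
    · rw [Finset.card_eq_sum_ones]
      push_cast
      refine Finset.sum_le_sum (fun u hu => ?_)
      unfold badSet at hu
      rw [mem_filter] at hu
      exact bad_var y hb j _ hu.2
    · intro a _ c _ hac
      simp only at hac
      omega
  refine h1.trans ?_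
  rw [← Finset.mul_sum]
  have h2 : ∑ t ∈ (badSet y b M j).image (fun u => M + u - b ^ (j + 1)),
      ∑ i ∈ range b, (av y b j (t + i * b ^ j) - av y b (j + 1) t) ^ 2
      ≤ ∑ t ∈ range (2 * M - b ^ (j + 1) + 1),
        ∑ i ∈ range b, (av y b j (t + i * b ^ j) - av y b (j + 1) t) ^ 2 := by
    refine Finset.sum_le_sum_of_subset_of_nonneg ?_
      (fun _ _ _ => Finset.sum_nonneg (fun _ _ => sq_nonneg _))
    intro t ht
    rw [mem_image] at ht
    obtain ⟨u, hu, rfl⟩ := ht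
    unfold badSet at hu
    rw [mem_filter, mem_range] at hu
    rw [mem_range]
    omega
  have h3 := en_succ y hb M j (hM.trans (by omega))
  calc 4 * (b : ℝ) ^ 2 * _ ≤ 4 * (b : ℝ) ^ 2 * (b * (en y b M j - en y b M (j + 1))) :=
        mul_le_mul_of_nonneg_left (h2.trans h3) (by positivity)
    _ = _ := by ring

theorem en_zero_le (y : ℕ → ℤ) (b M s : ℕ) (hM : 0 < M) (hy : ∀ t, |y (t + 1) - y t| ≤ s) :
    en y b M 0 ≤ 2 * M * (s : ℝ) ^ 2 := by
  unfold en
  have h1 : ∀ t ∈ range (2 * M - b ^ 0 + 1), (av y b 0 t) ^ 2 ≤ (s : ℝ) ^ 2 := by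
    intro t _
    unfold av
    rw [pow_zero, pow_zero, div_one, ← sq_abs]
    have h2 : |(y (t + 1) : ℝ) - y t| ≤ s := by exact_mod_cast hy t
    exact pow_le_pow_left₀ (abs_nonneg _) h2 2
  refine (Finset.sum_le_sum h1).trans ?_
  rw [Finset.sum_const, card_range, nsmul_eq_mul, pow_zero]
  refine mul_le_mul_of_nonneg_right ?_ (sq_nonneg _)
  have : 2 * M - 1 + 1 = 2 * M := by omega
  rw [this]
  push_cast
  exact le_rfl

theorem sum_card_badSet (y : ℕ → ℤ) {b : ℕ} (hb : 0 < b) (J s : ℕ)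
    (hy : ∀ t, |y (t + 1) - y t| ≤ s) :
    ∑ j ∈ range J, (badSet y b (b ^ J) j).card ≤ 8 * b ^ 3 * s ^ 2 * b ^ J := by
  have h1 : ∀ j ∈ range J, ((badSet y b (b ^ J) j).card : ℝ)
      ≤ 4 * (b : ℝ) ^ 3 * (en y b (b ^ J) j - en y b (b ^ J) (j + 1)) := by
    intro j hj
    rw [mem_range] at hj
    exact card_badSet y hb _ j (Nat.pow_le_pow_right hb hj)
  have h2 : ((∑ j ∈ range J, (badSet y b (b ^ J) j).card : ℕ) : ℝ)
      ≤ 8 * (b : ℝ) ^ 3 * s ^ 2 * b ^ J := by
    push_cast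
    refine (Finset.sum_le_sum h1).trans ?_
    rw [← Finset.mul_sum, Finset.sum_range_sub']
    have h3 := en_nonneg y b (b ^ J) J
    have h4 := en_zero_le y b (b ^ J) s (Nat.pow_pos hb) hy
    push_cast at h4
    have h5 : (0 : ℝ) ≤ 4 * (b : ℝ) ^ 3 := by positivity
    nlinarith [mul_le_mul_of_nonneg_left (by linarith : en y b (b ^ J) 0 - en y b (b ^ J) J
      ≤ 2 * (b : ℝ) ^ J * (s : ℝ) ^ 2) h5]
  exact_mod_cast h2

/-- Some target time has few bad scales. -/
theorem exists_good_time {D : ℕ} (y : Fin D → ℕ → ℤ) {b : ℕ} (hb : 0 < b) (J s : ℕ)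
    (hy : ∀ a t, |y a (t + 1) - y a t| ≤ s) :
    ∃ u < b ^ J, ((Finset.univ : Finset (Fin D × Fin J)).filter
      (fun p => u ∈ badSet (y p.1) b (b ^ J) p.2)).card ≤ D * (8 * b ^ 3 * s ^ 2) := by
  have hM : 0 < b ^ J := Nat.pow_pos hb
  have h1 : ∑ u ∈ range (b ^ J), ((Finset.univ : Finset (Fin D × Fin J)).filter
      (fun p => u ∈ badSet (y p.1) b (b ^ J) p.2)).card
      ≤ ∑ _u ∈ range (b ^ J), D * (8 * b ^ 3 * s ^ 2) := by
    simp_rw [Finset.card_filter]
    rw [Finset.sum_comm, Fintype.sum_prod_type]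
    have h2 : ∀ a : Fin D, ∑ j : Fin J, ∑ u ∈ range (b ^ J),
        (if u ∈ badSet (y a) b (b ^ J) j then 1 else 0) ≤ 8 * b ^ 3 * s ^ 2 * b ^ J := by
      intro a
      refine le_trans (le_of_eq ?_) (sum_card_badSet (y a) hb J s (hy a))
      rw [← Fin.sum_univ_eq_sum_range (fun j => (badSet (y a) b (b ^ J) j).card) J]
      refine Finset.sum_congr rfl (fun j _ => ?_)
      rw [← Finset.card_filter]
      congr 1
      ext u
      rw [mem_filter]
      constructor
      · exact fun h => h.2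
      · intro h
        refine ⟨?_, h⟩
        unfold badSet at h
        exact (mem_filter.1 h).1
    refine (Finset.sum_le_sum (fun a _ => h2 a)).trans ?_
    rw [Finset.sum_const, Finset.sum_const, Finset.card_univ, Fintype.card_fin, card_range]
    simp only [smul_eq_mul]
    nlinarith
  obtain ⟨u, hu, h3⟩ := Finset.exists_le_of_sum_le (by
    exact ⟨0, mem_range.2 hM⟩) h1
  exact ⟨u, mem_range.1 hu, h3⟩

end Pool.Agent.R579.Rugby
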