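import Mathlib

/-!
`d`-dimensional Rugby on the board `ℤ × [n]^d`.
-/

namespace Pool.Agent.R579.Rugby

/-- The vertex `p` lies on the board `ℤ × [n]^d`: all coordinates except the first one are between
`1` and `n`. -/
def OnBoard {d : ℕ} (n : ℕ) (p : Fin (d + 1) → ℤ) : Prop :=
  ∀ i : Fin d, 1 ≤ p i.succ ∧ p i.succ ≤ n

/-- The `ℓ_∞` distance of `p` and `q` is at most `k`. -/
def Near {d : ℕ} (k : ℕ) (p q : Fin (d + 1) → ℤ) : Prop :=
  ∀ i, |p i - q i| ≤ k

/-- `c t i` is the position of cop `i` after `t` cop turns: the cops stay on the board and each cop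
stays put or moves to an adjacent vertex on each turn. -/
structure IsCopPlay {d m : ℕ} (n : ℕ) (c : ℕ → Fin m → Fin (d + 1) → ℤ) : Prop where
  board : ∀ t i, OnBoard n (c t i)
  move : ∀ t i, Near 1 (c (t + 1) i) (c t i)

/-- The play is a win of the robber, when `c t` are the positions of the cops after `t` cop turns
and `r t` is the position of the robber after `t` robber turns (the cops move first). The robber
starts at `(-C, n, …, n)`, at least `2 * n` behind every cop, he moves on the board by at most `s`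
on each turn, he is never on the vertex of a cop (neither after a turn of the cops nor after a turn
of the robber), and his first coordinate eventually exceeds every `k`. -/
structure RobberWins {d m : ℕ} (n s : ℕ) (c : ℕ → Fin m → Fin (d + 1) → ℤ)
    (r : ℕ → Fin (d + 1) → ℤ) : Prop where
  start : ∀ i : Fin d, r 0 i.succ = n
  behind : ∀ i, r 0 0 + 2 * n ≤ c 0 i 0
  board : ∀ t, OnBoard n (r t)
  move : ∀ t, Near s (r (t + 1)) (r t)
  free : ∀ t i, c t i ≠ r t ∧ c (t + 1) i ≠ r t
  passes : ∀ k : ℕ, ∃ t, (k : ℤ) < r t 0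

/-- `σ` is causal: its value at time `t` depends only on the first coordinates `0, …, t` of the
argument. -/
def Causal {A B : Type} (σ : (ℕ → A) → ℕ → B) : Prop :=
  ∀ c c' : ℕ → A, ∀ t, (∀ u ≤ t, c u = c' u) → σ c t = σ c' t

/-- A robber of speed `s` beats `m` cops in `d`-dimensional Rugby on `ℤ × [n]^d`: he has a strategy
(his position after his turn `t` is a function of the positions of the cops after their turns
`0, …, t`) which wins against every play of the cops. -/
def RobberBeats (d n s m : ℕ) : Prop :=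
  ∃ σ : (ℕ → Fin m → Fin (d + 1) → ℤ) → ℕ → Fin (d + 1) → ℤ, Causal σ ∧
    ∀ c, IsCopPlay n c → RobberWins n s c (σ c)

/-- Question Q1: for every dimension `d ≥ 1` and every `ε > 0` there is a speed `s ≥ 2` such that,
for all sufficiently large `n`, a robber of speed `s` beats `n ^ (d - ε)` cops. -/
def Question : Prop :=
  ∀ d : ℕ, 1 ≤ d → ∀ ε : ℝ, 0 < ε → ∃ s : ℕ, 2 ≤ s ∧ ∃ N : ℕ, ∀ n ≥ N,
    RobberBeats d n s ⌊(n : ℝ) ^ ((d : ℝ) - ε)⌋₊

/-- Two causal maps, one of them with delay, have a fixed point. -/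
theorem exists_play {A B : Type} (σ : (ℕ → A) → ℕ → B) (hσ : Causal σ)
    (κ : (ℕ → B) → ℕ → A) (hκ : ∀ r r' : ℕ → B, ∀ t, (∀ u < t, r u = r' u) → κ r t = κ r' t)
    (b0 : B) : ∃ c, c = κ (σ c) := by
  let C : ℕ → ℕ → A := fun k => Nat.rec (κ (fun _ => b0)) (fun _ c => κ (σ c)) k
  have hC : ∀ k, C (k + 1) = κ (σ (C k)) := fun k => rfl
  have h1 : ∀ k, ∀ u ≤ k, C k u = C (k + 1) u := by
    intro k
    induction k with
    | zero =>
      intro u hu
      obtain rfl : u = 0 := by omega
      rw [hC]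
      exact hκ _ _ _ (fun v hv => absurd hv (by omega))
    | succ k ih =>
      intro u hu
      rw [hC k, hC (k + 1)]
      refine hκ _ _ _ (fun v hv => ?_)
      exact hσ _ _ _ (fun w hw => ih w (by omega))
  have h2 : ∀ k l, k ≤ l → ∀ u ≤ k, C k u = C l u := by
    intro k l hkl
    induction l, hkl using Nat.le_induction with
    | base => intro u _; rfl
    | succ l hl ih =>
      intro u hu
      rw [ih u hu, h1 l u (by omega)]
  refine ⟨fun t => C t t, ?_⟩
  funext t
  have h3 : κ (σ (fun t => C t t)) t = κ (σ (C t)) t := by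
    refine hκ _ _ _ (fun v hv => ?_)
    exact hσ _ _ _ (fun w hw => h2 w t (by omega) w le_rfl)
  rw [h3, ← hC]
  exact h1 t t le_rfl

/-- A path with steps of length at most `s` which starts at a negative number and exceeds
`10 * s * M` spends a full interval `[4 * M * q, 4 * M * q + 2 * M]` between `0` and
`10 * s * M`. -/
theorem exists_period (x : ℕ → ℤ) (s M : ℕ) (hM : 0 < M) (hx : ∀ t, |x (t + 1) - x t| ≤ s)
    (h0 : x 0 < 0) (h1 : ∃ t, ((10 * s * M : ℕ) : ℤ) < x t) :
    ∃ q, ∀ u ≤ 2 * M, 0 ≤ x (4 * M * q + u) ∧ x (4 * M * q + u) ≤ 10 * s * M := by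
  classical
  obtain ⟨T, hT, hTmin⟩ : ∃ T, ((10 * s * M : ℕ) : ℤ) < x T ∧
      ∀ t < T, ¬ ((10 * s * M : ℕ) : ℤ) < x t :=
    ⟨Nat.find h1, Nat.find_spec h1, fun t ht => Nat.find_min h1 ht⟩
  let P : ℕ → Prop := fun t => x t < 0
  obtain ⟨a, ha1, ha2, ha3⟩ : ∃ a ≤ T, x a < 0 ∧ ∀ t, a < t → t ≤ T → ¬ x t < 0 := by
    refine ⟨Nat.findGreatest P T, Nat.findGreatest_le T, ?_, ?_⟩
    · exact Nat.findGreatest_spec (P := P) (Nat.zero_le T) h0
    · intro t ht1 ht2 ht3
      exact Nat.findGreatest_is_greatest (P := P) ht1 ht2 ht3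
  have hdrift : ∀ k, x (a + k) - x a ≤ s * k := by
    intro k
    induction k with
    | zero => simp
    | succ k ih =>
      have h2 := (abs_le.1 (hx (a + k))).2
      rw [show a + (k + 1) = a + k + 1 by ring]
      push_cast
      linarith
  have h2 : a + 10 * M < T := by
    by_contra h3
    obtain ⟨k, rfl⟩ := Nat.exists_eq_add_of_le ha1
    have h4 := hdrift k
    have h5 : s * k ≤ s * (10 * M) := Nat.mul_le_mul_left _ (by omega)
    have h6 : ((s * k : ℕ) : ℤ) ≤ ((s * (10 * M) : ℕ) : ℤ) := by exact_mod_cast h5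
    push_cast at h6 hT
    linarith
  have h3 := Nat.div_add_mod a (4 * M)
  have h4 := Nat.mod_lt a (show 0 < 4 * M by omega)
  refine ⟨a / (4 * M) + 1, fun u hu => ?_⟩
  have h5 : 4 * M * (a / (4 * M) + 1) = 4 * M * (a / (4 * M)) + 4 * M := by ring
  rw [h5]
  generalize 4 * M * (a / (4 * M)) = Q at *
  constructor
  · exact not_lt.1 (ha3 _ (by omega) (by omega))
  · have h6 := not_lt.1 (hTmin (Q + 4 * M + u) (by omega))
    push_cast at h6
    exact h6

/-- Rounding. -/
theorem exists_round (z B : ℤ) (hB : 0 < B) :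
    ∃ w : ℤ, 2 * |w * B - z| ≤ B ∧ (∀ K : ℤ, 0 ≤ K → |z| ≤ K * B → |w| ≤ K) ∧
      (0 ≤ z → 0 ≤ w) := by
  have h1 := Int.emod_add_mul_ediv (2 * z + B) (2 * B)
  have h2 := Int.emod_nonneg (2 * z + B) (show 2 * B ≠ 0 by omega)
  have h3 := Int.emod_lt_of_pos (2 * z + B) (show 0 < 2 * B by omega)
  set w := (2 * z + B) / (2 * B) with hw
  set e := (2 * z + B) % (2 * B) with he
  have h4 : 2 * (z - w * B) = e - B := by linarith
  refine ⟨w, ?_, ?_, ?_⟩
  · have h5 : 2 * |w * B - z| = |2 * (z - w * B)| := by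
      rw [abs_mul, abs_sub_comm]
      norm_num
    rw [h5, h4, abs_le]
    constructor <;> linarith
  · intro K hK hz
    rw [abs_le] at hz ⊢
    constructor
    · by_contra h5
      have h6 : w ≤ -K - 1 := by omega
      nlinarith [mul_le_mul_of_nonneg_right h6 hB.le]
    · by_contra h5
      have h6 : K + 1 ≤ w := by omega
      nlinarith [mul_le_mul_of_nonneg_right h6 hB.le]
  · intro hz
    by_contra h5
    have h6 : w ≤ -1 := by omega
    nlinarith [mul_le_mul_of_nonneg_right h6 hB.le]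

end Pool.Agent.R579.Rugby
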