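import Mathlib

/-!
The motion of one coordinate of a cop.
-/

namespace Pool.Agent.R579.Rugby

open Finset

/-- One step of length at most one from `x` towards `p`. -/
def step (x p : ℤ) : ℤ := if x < p then x + 1 else if p < x then x - 1 else x

theorem step_abs (x p : ℤ) : |step x p - x| ≤ 1 := by
  unfold step
  split_ifs <;> simp

theorem step_self (p : ℤ) : step p p = p := by simp [step]

theorem step_le (x p : ℤ) (k : ℤ) (hk : 0 ≤ k) (h : |x - p| ≤ k + 1) : |step x p - p| ≤ k := by
  unfold step
  rw [abs_le] at h ⊢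
  split_ifs with h1 h2
  · constructor <;> omega
  · constructor <;> omega
  · constructor <;> omega

theorem reach_aux (x : ℕ → ℤ) (p : ℤ) (a k : ℕ)
    (h : ∀ u, a ≤ u → u < a + k → x (u + 1) = step (x u) p) (hx : |x a - p| ≤ k) :
    ∀ i, i ≤ k → |x (a + i) - p| ≤ (k : ℤ) - i := by
  intro i
  induction i with
  | zero => intro _; simpa using hx
  | succ i ih =>
    intro hi
    rw [show a + (i + 1) = a + i + 1 by ring, h (a + i) (by omega) (by omega)]
    refine step_le _ _ _ (by push_cast; omega) ?_
    have := ih (by omega)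
    push_cast
    linarith

theorem reach (x : ℕ → ℤ) (p : ℤ) (a k : ℕ)
    (h : ∀ u, a ≤ u → u < a + k → x (u + 1) = step (x u) p) (hx : |x a - p| ≤ k) :
    x (a + k) = p := by
  have := reach_aux x p a k h hx k le_rfl
  rw [sub_self] at this
  have h2 := abs_nonpos_iff.1 this
  omega

theorem stay (x : ℕ → ℤ) (p : ℤ) (a k : ℕ)
    (h : ∀ u, a ≤ u → u < a + k → x (u + 1) = step (x u) p) (hx : x a = p) :
    x (a + k) = p :=
  reach x p a k h (by rw [hx, sub_self, abs_zero]; positivity)

theorem drift (x : ℕ → ℤ) (hx : ∀ u, |x (u + 1) - x u| ≤ 1) (a k : ℕ) :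
    |x (a + k) - x a| ≤ k := by
  induction k with
  | zero => simp
  | succ k ih =>
    have h1 := hx (a + k)
    rw [show a + (k + 1) = a + k + 1 by ring]
    rw [abs_le] at *
    push_cast
    constructor <;> linarith [h1.1, h1.2, ih.1, ih.2]

/-- The time at which the cop starts to move to its target of level `j`. -/
def thr (b τ j : ℕ) : ℕ := τ - b ^ (j + 1) + b ^ j

/-- The level of the cop at the time `u`. -/
def lev (b J τ u : ℕ) : ℕ := ((range J).filter (fun j => u < thr b τ j)).card

/-- The target of level `j` for the path `z`. -/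
def tg (b J τ : ℕ) (base : ℤ) (w : ℕ → ℤ) (z : ℕ → ℤ) (j : ℕ) : ℤ :=
  if j < J then z (τ - b ^ (j + 1)) + ((b : ℤ) - 1) * (z (thr b τ j) - z (τ - b ^ (j + 1)))
    + w j * (b : ℤ) ^ j else base

/-- The position at time `t` of the coordinate of a cop with data `τ`, `base`, `w`, when the
corresponding coordinate of the robber follows the path `y`. -/
def pos (b J τ : ℕ) (base : ℤ) (w : ℕ → ℤ) (y : ℕ → ℤ) : ℕ → ℤ
  | 0 => base
  | t + 1 => step (pos b J τ base w y t)
      (if t % (4 * b ^ J) < 2 * b ^ J then
        tg b J τ base w (fun a => y (min t (t - t % (4 * b ^ J) + a)))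
          (lev b J τ (t % (4 * b ^ J)))
      else base)

theorem pos_step (b J τ : ℕ) (base : ℤ) (w : ℕ → ℤ) (y : ℕ → ℤ) (t : ℕ) :
    |pos b J τ base w y (t + 1) - pos b J τ base w y t| ≤ 1 := by
  rw [pos]
  exact step_abs _ _

theorem pos_congr (b J τ : ℕ) (base : ℤ) (w : ℕ → ℤ) (y y' : ℕ → ℤ) (t : ℕ)
    (h : ∀ u < t, y u = y' u) : pos b J τ base w y t = pos b J τ base w y' t := by
  induction t with
  | zero => rfl
  | succ t ih =>
    rw [pos, pos, ih (fun u hu => h u (by omega))]
    have : (fun a => y (min t (t - t % (4 * b ^ J) + a)))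
        = (fun a => y' (min t (t - t % (4 * b ^ J) + a))) := by
      funext a
      exact h _ (by omega)
    rw [this]

theorem thr_anti {b τ : ℕ} (hb : 2 ≤ b) {i j : ℕ} (hij : i < j) (hτ : b ^ (j + 1) ≤ τ) :
    thr b τ j ≤ τ - b ^ (i + 1) := by
  unfold thr
  have h1 : b ^ (i + 1) ≤ b ^ j := Nat.pow_le_pow_right (by omega) hij
  have h2 : 2 * b ^ j ≤ b ^ (j + 1) := by
    rw [pow_succ, mul_comm]
    exact Nat.mul_le_mul_left _ hb
  omega

theorem lev_eq {b J τ u k : ℕ} (hk : k ≤ J) (h1 : ∀ i < k, u < thr b τ i)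
    (h2 : ∀ i, k ≤ i → i < J → thr b τ i ≤ u) : lev b J τ u = k := by
  unfold lev
  have : (range J).filter (fun j => u < thr b τ j) = range k := by
    ext i
    rw [mem_filter, mem_range, mem_range]
    constructor
    · rintro ⟨h3, h4⟩
      by_contra h5
      exact absurd (h2 i (by omega) h3) (by omega)
    · intro h3
      exact ⟨by omega, h1 i h3⟩
  rw [this, card_range]

section Period

variable {b J τ : ℕ} (hb : 5 ≤ b) (base : ℤ) (w : ℕ → ℤ) (y : ℕ → ℤ)

include hb in
theorem M_pos : 0 < b ^ J := Nat.pow_pos (by omega)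

theorem pos_succ' (q u : ℕ) (hu : u < 4 * b ^ J) :
    pos b J τ base w y (4 * b ^ J * q + u + 1) = step (pos b J τ base w y (4 * b ^ J * q + u))
      (if u < 2 * b ^ J then
        tg b J τ base w (fun a => y (min (4 * b ^ J * q + u) (4 * b ^ J * q + a)))
          (lev b J τ u)
      else base) := by
  have h1 : (4 * b ^ J * q + u) % (4 * b ^ J) = u := by
    rw [Nat.mul_add_mod, Nat.mod_eq_of_lt hu]
  rw [pos, h1, Nat.add_sub_cancel]

theorem pos_period (q : ℕ) : pos b J τ base w y (4 * b ^ J * q) = base := by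
  induction q with
  | zero => rw [mul_zero]; rfl
  | succ q ih =>
    have h1 := drift (pos b J τ base w y) (pos_step b J τ base w y) (4 * b ^ J * q) (2 * b ^ J)
    rw [ih] at h1
    have h2 := reach (pos b J τ base w y) base (4 * b ^ J * q + 2 * b ^ J) (2 * b ^ J) ?_ ?_
    · rw [show 4 * b ^ J * (q + 1) = 4 * b ^ J * q + 2 * b ^ J + 2 * b ^ J by ring]
      exact h2
    · intro u hu1 hu2
      obtain ⟨v, rfl⟩ := Nat.exists_eq_add_of_le (show 4 * b ^ J * q ≤ u by omega)
      rw [pos_succ' base w y q v (by omega), if_neg (by omega)]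
    · exact h1

/-- If all targets are close enough to the position of the robber at time `τ`, then the cop is at
this position at time `τ`. -/
theorem pos_capture (hb : 5 ≤ b) (q : ℕ) (hτ1 : b ^ J ≤ τ) (hτ2 : τ < 2 * b ^ J) (z : ℕ → ℤ)
    (hz : ∀ a, z a = y (4 * b ^ J * q + a))
    (hP : ∀ j ≤ J, 2 * |tg b J τ base w z j - z τ| ≤ (b : ℤ) ^ j) :
    pos b J τ base w y (4 * b ^ J * q + τ) = z τ := by
  set x := pos b J τ base w y with hx
  have hbb : ∀ j, 5 * b ^ j ≤ b ^ (j + 1) := by
    intro j
    rw [pow_succ, mul_comm]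
    exact Nat.mul_le_mul_left _ hb
  have hpp : ∀ j, 0 < b ^ j := fun j => Nat.pow_pos (by omega)
  have hle : ∀ i j, i ≤ j → b ^ i ≤ b ^ j := fun i j h => Nat.pow_le_pow_right (by omega) h
  -- the target at time `u ≥ thr j`
  have htg : ∀ u j, j ≤ J → (j < J → thr b τ j ≤ u) →
      tg b J τ base w (fun a => y (min (4 * b ^ J * q + u) (4 * b ^ J * q + a))) j
        = tg b J τ base w z j := by
    intro u j hj hu
    unfold tg
    split_ifs with h1
    · have h2 := hu h1
      have h3 : τ - b ^ (j + 1) ≤ thr b τ j := by unfold thr; omega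
      rw [hz, hz]
      beta_reduce
      rw [min_eq_right (by omega), min_eq_right (by omega)]
    · rfl
  have hstep : ∀ u j, u < 2 * b ^ J → j ≤ J → (∀ i < j, u < thr b τ i) →
      (∀ i, j ≤ i → i < J → thr b τ i ≤ u) →
      x (4 * b ^ J * q + u + 1) = step (x (4 * b ^ J * q + u)) (tg b J τ base w z j) := by
    intro u j hu hj h1 h2
    rw [hx, pos_succ' base w y q u (by omega), if_pos hu, lev_eq hj h1 h2, htg u j hj]
    intro h3
    exact h2 j le_rfl h3
  -- main induction
  have key : ∀ k ≤ J, x (4 * b ^ J * q + (τ - b ^ (J - k))) = tg b J τ base w z (J - k) := by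
    intro k
    induction k with
    | zero =>
      intro _
      rw [Nat.sub_zero]
      have h1 : tg b J τ base w z J = base := by
        unfold tg
        rw [if_neg (by omega)]
      rw [h1]
      refine stay x base (4 * b ^ J * q) (τ - b ^ J) ?_ (pos_period base w y q)
      intro u hu1 hu2
      obtain ⟨v, rfl⟩ := Nat.exists_eq_add_of_le hu1
      rw [← h1]
      refine hstep v J (by omega) le_rfl ?_ (fun i h2 h3 => absurd h3 (by omega))
      intro i hi
      have h4 := hle (i + 1) J hi
      have h5 := hpp i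
      unfold thr
      omega
    | succ k ih =>
      intro hk
      have h1 := ih (by omega)
      obtain ⟨j, hj⟩ : ∃ j, j = J - (k + 1) := ⟨_, rfl⟩
      have hj1 : J - k = j + 1 := by omega
      rw [hj1] at h1
      rw [← hj]
      have hjJ : j < J := by omega
      have e1 := hle (j + 1) J hjJ
      have e2 := hbb j
      have e3 := hpp j
      have e4 : thr b τ j = τ - b ^ (j + 1) + b ^ j := rfl
      -- first part: wait
      have h2 : x (4 * b ^ J * q + (τ - b ^ (j + 1)) + b ^ j) = tg b J τ base w z (j + 1) := by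
        refine stay x _ (4 * b ^ J * q + (τ - b ^ (j + 1))) (b ^ j) ?_ h1
        intro u hu1 hu2
        obtain ⟨v, rfl⟩ := Nat.exists_eq_add_of_le (show 4 * b ^ J * q ≤ u by omega)
        refine hstep v (j + 1) (by omega) hjJ ?_ ?_
        · intro i hi
          have h3 : i < j ∨ i = j := by omega
          rcases h3 with h3 | rfl
          · have h4 := thr_anti (τ := τ) (show 2 ≤ b by omega) h3 (by omega)
            have h5 : thr b τ i = τ - b ^ (i + 1) + b ^ i := rfl
            have h6 := hpp i
            omega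
          · omega
        · intro i hi1 hi2
          have h4 := thr_anti (τ := τ) (show 2 ≤ b by omega) (show j < i by omega)
            ((hle (i + 1) J hi2).trans hτ1)
          omega
      -- second part: move
      have h3 := reach x (tg b J τ base w z j) (4 * b ^ J * q + (τ - b ^ (j + 1)) + b ^ j)
        (b ^ (j + 1) - 2 * b ^ j) ?_ ?_
      · rw [show 4 * b ^ J * q + (τ - b ^ (j + 1)) + b ^ j + (b ^ (j + 1) - 2 * b ^ j)
          = 4 * b ^ J * q + (τ - b ^ j) by omega] at h3
        exact h3
      · intro u hu1 hu2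
        obtain ⟨v, rfl⟩ := Nat.exists_eq_add_of_le (show 4 * b ^ J * q ≤ u by omega)
        refine hstep v j (by omega) hjJ.le ?_ ?_
        · intro i hi
          have h4 : b ^ (i + 1) ≤ b ^ j := hle _ _ hi
          have h5 : thr b τ i = τ - b ^ (i + 1) + b ^ i := rfl
          have h6 := hpp i
          omega
        · intro i hi1 hi2
          have h3 : i = j ∨ j < i := by omega
          rcases h3 with rfl | h3
          · omega
          · have h4 := thr_anti (τ := τ) (show 2 ≤ b by omega) h3
              ((hle (i + 1) J hi2).trans hτ1)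
            omega
      · rw [h2]
        have h4 := hP j hjJ.le
        have h5 := hP (j + 1) hjJ
        have e2' : (5 : ℤ) * (b : ℤ) ^ j ≤ (b : ℤ) ^ (j + 1) := by exact_mod_cast e2
        rw [Nat.cast_sub (by omega)]
        push_cast
        have h6 : |tg b J τ base w z (j + 1) - tg b J τ base w z j|
            ≤ |tg b J τ base w z (j + 1) - z τ| + |tg b J τ base w z j - z τ| := by
          rw [show tg b J τ base w z (j + 1) - tg b J τ base w z j
            = (tg b J τ base w z (j + 1) - z τ) - (tg b J τ base w z j - z τ) by ring]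
          exact abs_sub _ _
        linarith
  have h0 := key J le_rfl
  rw [Nat.sub_self, pow_zero] at h0
  have h1 := hP 0 (Nat.zero_le _)
  rw [pow_zero] at h1
  have h2 : tg b J τ base w z 0 = z τ := by
    have h3 : |tg b J τ base w z 0 - z τ| ≤ 0 := by omega
    have h4 := abs_nonpos_iff.1 h3
    omega
  rw [h2] at h0
  have hτ0 : 0 < τ := by
    have := hpp J
    omega
  have h3 := hstep (τ - 1) 0 (by omega) (Nat.zero_le _) (fun i hi => absurd hi (by omega)) ?_
  · rw [h0, h2, step_self, show 4 * b ^ J * q + (τ - 1) + 1 = 4 * b ^ J * q + τ by omega] at h3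
    exact h3
  · intro i _ hi2
    have h4 : b ^ (i + 1) ≤ τ := (hle (i + 1) J hi2).trans hτ1
    have h5 := hbb i
    have h6 := hpp i
    unfold thr
    omega

end Period

end Pool.Agent.R579.Rugby
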