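import Pool.Agent.R579.Rugby.Energy
import Pool.Agent.R579.Rugby.Motion
import Pool.Agent.R579.Rugby.Game

/-!
The strategy of the cops.
-/

namespace Pool.Agent.R579.Rugby

open Finset

/-- The data of a cop: the target time, the base position, the list of exceptional advices and the
ordinary advices. -/
abbrev Seed (b J s D F : ℕ) : Type :=
  Fin (b ^ J) × (Fin D → Fin (b + 10 * s + 1)) ×
    (Fin F → (Fin D × Fin J) × Fin (4 * b * s + 1)) × (Fin D → Fin J → Fin (2 * s + 3))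

open Classical in
/-- The advice given by a list of exceptional advices and a table of ordinary advices. -/
noncomputable def adv {J D F : ℕ} (b s : ℕ) (e : Fin F → (Fin D × Fin J) × Fin (4 * b * s + 1))
    (g : Fin D → Fin J → Fin (2 * s + 3)) (a : Fin D) (j : ℕ) : ℤ :=
  if hj : j < J then
    if h : ∃ k, (e k).1 = (a, ⟨j, hj⟩) then ((e h.choose).2 : ℤ) - 2 * b * s
    else (g a ⟨j, hj⟩ : ℤ) - (s + 1)
  else 0

theorem exists_adv {J D F : ℕ} (b s : ℕ) (W : Fin D × Fin J → ℤ)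
    (hW : ∀ p, |W p| ≤ 2 * b * s) (S : Finset (Fin D × Fin J)) (hS : S.Nonempty)
    (hSF : S.card ≤ F) (hW' : ∀ p, p ∉ S → |W p| ≤ s + 1) :
    ∃ (e : Fin F → (Fin D × Fin J) × Fin (4 * b * s + 1)) (g : Fin D → Fin J → Fin (2 * s + 3)),
      ∀ a j (hj : j < J), adv b s e g a j = W (a, ⟨j, hj⟩) := by
  classical
  obtain ⟨p0, hp0⟩ := hS
  -- an enumeration of `S`
  obtain ⟨f, hf1, hf2⟩ : ∃ f : Fin F → Fin D × Fin J, (∀ p ∈ S, ∃ k, f k = p) ∧
      ∀ k, f k ∈ S := by
    refine ⟨fun k => if h : (k : ℕ) < S.card then (S.equivFin.symm ⟨k, h⟩ : S) else p0, ?_, ?_⟩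
    · intro p hp
      refine ⟨⟨S.equivFin ⟨p, hp⟩, (S.equivFin ⟨p, hp⟩).isLt.trans_le hSF⟩, ?_⟩
      simp
    · intro k
      dsimp only
      split_ifs with h
      · exact (S.equivFin.symm ⟨k, h⟩).2
      · exact hp0
  have hb1 : ∀ p, (W p + 2 * b * s).toNat < 4 * b * s + 1 := by
    intro p
    have := abs_le.1 (hW p)
    zify
    rw [Int.toNat_of_nonneg (by linarith)]
    linarith
  refine ⟨fun k => (f k, ⟨(W (f k) + 2 * b * s).toNat, hb1 _⟩),
    fun a j => ⟨min (W (a, j) + (s + 1)).toNat (2 * s + 2), by omega⟩, ?_⟩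
  intro a j hj
  unfold adv
  rw [dif_pos hj]
  split_ifs with h
  · have h1 := h.choose_spec
    set k := h.choose with hk
    change f k = _ at h1
    simp only
    rw [h1, Int.toNat_of_nonneg]
    · ring
    · have := abs_le.1 (hW (a, ⟨j, hj⟩))
      linarith
  · have h1 : (a, (⟨j, hj⟩ : Fin J)) ∉ S := by
      intro hmem
      obtain ⟨k, hk⟩ := hf1 _ hmem
      exact h ⟨k, hk⟩
    have h2 := abs_le.1 (hW' _ h1)
    simp only
    rw [min_eq_left]
    · rw [Int.toNat_of_nonneg (by linarith)]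
      ring
    · zify
      rw [Int.toNat_of_nonneg (by linarith)]
      linarith

/-- The position of the cop with the data `τ`, `base`, `w`. -/
def cop {d : ℕ} (n b J τ : ℕ) (base : Fin (d + 1) → ℤ) (w : Fin (d + 1) → ℕ → ℤ)
    (r : ℕ → Fin (d + 1) → ℤ) (t : ℕ) (a : Fin (d + 1)) : ℤ :=
  if a = 0 then pos b J τ (base a) (w a) (fun u => r u a) t
  else max 1 (min n (pos b J τ (base a) (w a) (fun u => r u a) t))

theorem cop_board {d : ℕ} (n b J τ : ℕ) (hn : 1 ≤ n) (base : Fin (d + 1) → ℤ)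
    (w : Fin (d + 1) → ℕ → ℤ) (r : ℕ → Fin (d + 1) → ℤ) (t : ℕ) :
    OnBoard n (cop n b J τ base w r t) := by
  intro i
  unfold cop
  rw [if_neg (Fin.succ_ne_zero i)]
  constructor
  · exact le_max_left _ _
  · have : (1 : ℤ) ≤ n := by exact_mod_cast hn
    exact max_le this (min_le_left _ _)

theorem cop_move {d : ℕ} (n b J τ : ℕ) (base : Fin (d + 1) → ℤ)
    (w : Fin (d + 1) → ℕ → ℤ) (r : ℕ → Fin (d + 1) → ℤ) (t : ℕ) :
    Near 1 (cop n b J τ base w r (t + 1)) (cop n b J τ base w r t) := by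
  intro a
  unfold cop
  have h := pos_step b J τ (base a) (w a) (fun u => r u a) t
  split_ifs
  · exact_mod_cast h
  · have h1 := abs_max_sub_max_le_max (1 : ℤ)
      (min n (pos b J τ (base a) (w a) (fun u => r u a) (t + 1))) 1
      (min n (pos b J τ (base a) (w a) (fun u => r u a) t))
    have h2 := abs_min_sub_min_le_max (n : ℤ)
      (pos b J τ (base a) (w a) (fun u => r u a) (t + 1)) n
      (pos b J τ (base a) (w a) (fun u => r u a) t)
    have h3 : ∀ v : ℤ, max (0 : ℤ) |v| = |v| := fun v => max_eq_right (abs_nonneg v)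
    rw [sub_self, abs_zero, h3] at h1 h2
    exact (h1.trans h2).trans (by exact_mod_cast h)

theorem cop_congr {d : ℕ} (n b J τ : ℕ) (base : Fin (d + 1) → ℤ)
    (w : Fin (d + 1) → ℕ → ℤ) (r r' : ℕ → Fin (d + 1) → ℤ) (t : ℕ)
    (h : ∀ u < t, r u = r' u) : cop n b J τ base w r t = cop n b J τ base w r' t := by
  funext a
  unfold cop
  rw [pos_congr b J τ (base a) (w a) (fun u => r u a) (fun u => r' u a) t
    (fun u hu => by rw [h u hu])]

theorem tg_bound {b J s : ℕ} (hb : 5 ≤ b) {τ : ℕ} (hτ : b ^ J ≤ τ) (z : ℕ → ℤ)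
    (hz : ∀ t, |z (t + 1) - z t| ≤ s) (j : ℕ) (hj : j < J) :
    |z τ - (z (τ - b ^ (j + 1)) + ((b : ℤ) - 1) * (z (thr b τ j) - z (τ - b ^ (j + 1))))|
      ≤ s * (b : ℤ) ^ j + |err z b j (τ - b ^ (j + 1))| ∧
    |z τ - (z (τ - b ^ (j + 1)) + ((b : ℤ) - 1) * (z (thr b τ j) - z (τ - b ^ (j + 1))))|
      ≤ 2 * b * s * (b : ℤ) ^ j := by
  have hdrift : ∀ t k : ℕ, |z (t + k) - z t| ≤ s * k := by
    intro t k
    induction k with
    | zero => simp
    | succ k ih =>
      have h1 := hz (t + k)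
      rw [show t + (k + 1) = t + k + 1 by ring]
      rw [abs_le] at *
      push_cast
      constructor <;> linarith [h1.1, h1.2, ih.1, ih.2]
  have e1 : b ^ (j + 1) ≤ τ := (Nat.pow_le_pow_right (by omega) hj).trans hτ
  obtain ⟨t, rfl⟩ := Nat.exists_eq_add_of_le' e1
  have e2 : b ^ (j + 1) = (b - 1) * b ^ j + b ^ j := by
    rw [pow_succ, Nat.sub_mul, one_mul, mul_comm]
    have : b ^ j ≤ b * b ^ j := Nat.le_mul_of_pos_left _ (by omega)
    omega
  unfold thr err
  rw [Nat.add_sub_cancel]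
  have h1 := hdrift (t + (b - 1) * b ^ j) (b ^ j)
  have h2 := hdrift t (b ^ j)
  have h3 := hdrift t ((b - 1) * b ^ j)
  rw [show t + (b - 1) * b ^ j + b ^ j = t + b ^ (j + 1) by rw [e2]; ring] at h1
  push_cast [Nat.cast_sub (show 1 ≤ b by omega)] at h1 h2 h3
  set B : ℤ := (b : ℤ) ^ j with hB
  have hB0 : 0 < B := by positivity
  have hb' : (5 : ℤ) ≤ b := by exact_mod_cast hb
  set p := z (t + b ^ (j + 1))
  set q := z (t + (b - 1) * b ^ j)
  set u := z (t + b ^ j)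
  set v := z t
  have h4 : p - (v + ((b : ℤ) - 1) * (u - v)) = (p - q) + ((q - v) - (b - 1) * (u - v)) := by ring
  constructor
  · rw [h4]
    exact (abs_add_le _ _).trans (add_le_add h1 le_rfl)
  · rw [h4]
    have h5 : |((b : ℤ) - 1) * (u - v)| ≤ (b - 1) * (s * B) := by
      rw [abs_mul, abs_of_nonneg (by linarith : (0 : ℤ) ≤ b - 1)]
      exact mul_le_mul_of_nonneg_left h2 (by linarith)
    have h6 : |(q - v) - (b - 1) * (u - v)| ≤ s * ((b - 1) * B) + (b - 1) * (s * B) :=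
      (abs_sub _ _).trans (add_le_add h3 h5)
    refine (abs_add_le _ _).trans ((add_le_add h1 h6).trans ?_)
    have h7 : (0 : ℤ) ≤ s * B := by positivity
    nlinarith

/-- The main result: with sufficiently many cops the robber does not win. -/
theorem not_robberBeats {d n s b J m : ℕ} (hb : 5 ≤ b) (hJ : 1 ≤ J) (hn1 : 1 ≤ n)
    (hn : n ≤ b ^ (J + 1))
    (hm : Fintype.card (Seed b J s (d + 1) ((d + 1) * (8 * b ^ 3 * s ^ 2) + 1)) ≤ m) :
    ¬ RobberBeats d n s m := by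
  classical
  rintro ⟨σ, hσ, hwin⟩
  set F := (d + 1) * (8 * b ^ 3 * s ^ 2) + 1 with hF
  have hM : 0 < b ^ J := Nat.pow_pos (by omega)
  have hne : Nonempty (Seed b J s (d + 1) F) :=
    ⟨(⟨0, hM⟩, fun _ => ⟨0, by omega⟩, fun _ => ((0, ⟨0, hJ⟩), ⟨0, by omega⟩),
      fun _ _ => ⟨0, by omega⟩)⟩
  obtain ⟨E, hE⟩ : ∃ E : Fin m → Seed b J s (d + 1) F, Function.Surjective E := by
    have h1 : Fintype.card (Seed b J s (d + 1) F) ≤ Fintype.card (Fin m) := by
      rwa [Fintype.card_fin]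
    obtain ⟨g⟩ := Function.Embedding.nonempty_of_card_le h1
    exact ⟨Function.invFun g, Function.invFun_surjective g.injective⟩
  -- the strategy of the cops
  let κ : (ℕ → Fin (d + 1) → ℤ) → ℕ → Fin m → Fin (d + 1) → ℤ := fun r t i =>
    cop n b J (b ^ J + (E i).1) (fun a => ((E i).2.1 a : ℤ) * (b : ℤ) ^ J)
      (adv b s (E i).2.2.1 (E i).2.2.2) r t
  obtain ⟨c, hc⟩ := exists_play σ hσ κ (fun r r' t h => by
    funext i
    exact cop_congr _ _ _ _ _ _ r r' t h) (fun _ => 0)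
  have hplay : IsCopPlay n c := by
    rw [hc]
    exact ⟨fun t i => cop_board _ _ _ _ hn1 _ _ _ _, fun t i => cop_move _ _ _ _ _ _ _ _⟩
  have hw := hwin c hplay
  set r := σ c with hr
  -- the robber starts behind
  have h0 : r 0 0 < 0 := by
    obtain ⟨i, hi⟩ := hE (⟨0, hM⟩, fun _ => ⟨0, by omega⟩,
      fun _ => ((0, ⟨0, hJ⟩), ⟨0, by omega⟩), fun _ _ => ⟨0, by omega⟩)
    have h1 := hw.behind i
    have h2 : c 0 i 0 = 0 := by
      rw [hc]
      change cop _ _ _ _ _ _ _ _ _ = 0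
      unfold cop
      rw [if_pos rfl, pos, hi]
      simp
    rw [h2] at h1
    have : (1 : ℤ) ≤ n := by exact_mod_cast hn1
    linarith
  obtain ⟨q, hq⟩ := exists_period (fun t => r t 0) s (b ^ J) hM (fun t => hw.move t 0) h0
    (hw.passes _)
  -- the path in this period
  let z : Fin (d + 1) → ℕ → ℤ := fun a u => r (4 * b ^ J * q + u) a
  have hz : ∀ a t, |z a (t + 1) - z a t| ≤ s := fun a t => hw.move (4 * b ^ J * q + t) a
  obtain ⟨u0, hu0, hbad⟩ := exists_good_time z (show 0 < b by omega) J s hz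
  set τ := b ^ J + u0 with hτ
  have hτ1 : b ^ J ≤ τ := by omega
  have hτ2 : τ < 2 * b ^ J := by omega
  -- predictions
  let pr : Fin (d + 1) → ℕ → ℤ := fun a j =>
    z a (τ - b ^ (j + 1)) + ((b : ℤ) - 1) * (z a (thr b τ j) - z a (τ - b ^ (j + 1)))
  have hbj : ∀ j : ℕ, (0 : ℤ) < (b : ℤ) ^ j := fun j => by positivity
  choose W hW1 hW2 hW3 using fun (p : Fin (d + 1) × Fin J) =>
    exists_round (z p.1 τ - pr p.1 p.2) ((b : ℤ) ^ (p.2 : ℕ)) (hbj _)
  choose G hG1 hG2 hG3 using fun a : Fin (d + 1) => exists_round (z a τ) ((b : ℤ) ^ J) (hbj _)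
  have hWb : ∀ p, |W p| ≤ 2 * b * s := fun p =>
    hW2 p _ (by positivity) (tg_bound hb hτ1 (z p.1) (hz p.1) p.2 p.2.isLt).2
  -- bad pairs
  set S0 := (Finset.univ : Finset (Fin (d + 1) × Fin J)).filter
      (fun p => u0 ∈ badSet (z p.1) b (b ^ J) p.2) with hS0
  let p0 : Fin (d + 1) × Fin J := (0, ⟨0, hJ⟩)
  have hScard : (insert p0 S0).card ≤ F := (Finset.card_insert_le _ _).trans (by omega)
  have hWg : ∀ p, p ∉ insert p0 S0 → |W p| ≤ s + 1 := by
    intro p hp
    rw [Finset.mem_insert, not_or] at hp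
    refine hW2 p _ (by positivity) ?_
    refine (tg_bound hb hτ1 (z p.1) (hz p.1) p.2 p.2.isLt).1.trans ?_
    have h1 : ¬ ((b : ℤ) ^ (p.2 : ℕ) < |err (z p.1) b p.2 (τ - b ^ ((p.2 : ℕ) + 1))|) := by
      intro h2
      refine hp.2 (mem_filter.2 ⟨mem_univ _, ?_⟩)
      unfold badSet
      exact mem_filter.2 ⟨mem_range.2 hu0, h2⟩
    rw [not_lt] at h1
    linarith
  obtain ⟨e, g, heg⟩ := exists_adv b s W hWb (insert p0 S0) (Finset.insert_nonempty _ _)
    hScard hWg
  -- the base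
  have hz0 : ∀ a, 0 ≤ z a τ ∧ z a τ ≤ (b + 10 * s) * (b : ℤ) ^ J := by
    intro a
    refine Fin.cases ?_ (fun i => ?_) a
    · have h1 := hq τ hτ2.le
      refine ⟨h1.1, h1.2.trans ?_⟩
      push_cast
      have := hbj J
      have : (0 : ℤ) ≤ b := by positivity
      nlinarith
    · have h1 := hw.board (4 * b ^ J * q + τ) i
      refine ⟨by linarith [h1.1], h1.2.trans ?_⟩
      have h2 : (n : ℤ) ≤ (b : ℤ) ^ (J + 1) := by exact_mod_cast hn
      rw [pow_succ] at h2
      have h3 := hbj J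
      have : (0 : ℤ) ≤ s := by positivity
      nlinarith
  have hGb : ∀ a, (G a).toNat < b + 10 * s + 1 := by
    intro a
    have h1 := hG3 a (hz0 a).1
    have h2 := hG2 a (b + 10 * s) (by positivity) (by
      rw [abs_of_nonneg (hz0 a).1]
      exact (hz0 a).2)
    rw [abs_of_nonneg h1] at h2
    zify
    rw [Int.toNat_of_nonneg h1]
    linarith
  obtain ⟨i, hi⟩ := hE (⟨u0, hu0⟩, fun a => ⟨(G a).toNat, hGb a⟩, e, g)
  -- the cop `i` is at the position of the robber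
  refine (hw.free (4 * b ^ J * q + τ) i).1 ?_
  rw [hc]
  change cop n b J (b ^ J + (E i).1) (fun a => ((E i).2.1 a : ℤ) * (b : ℤ) ^ J)
      (adv b s (E i).2.2.1 (E i).2.2.2) (σ c) (4 * b ^ J * q + τ) = _
  rw [← hr, hi]
  funext a
  simp only
  have hpos : pos b J τ (((G a).toNat : ℤ) * (b : ℤ) ^ J) (adv b s e g a) (fun u => r u a)
      (4 * b ^ J * q + τ) = z a τ := by
    refine pos_capture _ _ _ hb q hτ1 hτ2 (z a) (fun _ => rfl) ?_
    intro j hj
    unfold tg
    split_ifs with h1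
    · rw [heg a j h1]
      have h2 := hW1 (a, ⟨j, h1⟩)
      simp only at h2
      have h3 : pr a j + W (a, ⟨j, h1⟩) * (b : ℤ) ^ j - z a τ
          = W (a, ⟨j, h1⟩) * (b : ℤ) ^ j - (z a τ - pr a j) := by ring
      change 2 * |pr a j + W (a, ⟨j, h1⟩) * (b : ℤ) ^ j - z a τ| ≤ _
      rw [h3]
      exact h2
    · obtain rfl : j = J := by omega
      rw [Int.toNat_of_nonneg (hG3 a (hz0 a).1)]
      exact hG1 a
  unfold cop
  simp only
  rw [hpos]
  change _ = z a τ
  split_ifs with h1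
  · rfl
  · obtain ⟨i', rfl⟩ := Fin.exists_succ_eq.2 h1
    have h2 := hw.board (4 * b ^ J * q + τ) i'
    change 1 ≤ z i'.succ τ ∧ z i'.succ τ ≤ n at h2
    rw [min_eq_right h2.2, max_eq_right h2.1]

end Pool.Agent.R579.Rugby
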